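import Mathlib
import Pool.Agent.TH176.Nag.Main

set_option autoImplicit false

/-!
# Nagata's conjecture for `n = 2 t ^ 2`, `t ≥ 8`

For every `t ≥ 8` and `n = 2 t ^ 2` very general points of the complex projective plane, every
plane curve of degree `d ≥ 1` with multiplicity at least `m i` at the `i`-th point satisfies
`∑ m i < d √n`.
-/

namespace Pool.Agent.Results.MP_bb3511_ag.ExactNonsquare

open MvPolynomial

theorem result (t : ℕ) (ht : 8 ≤ t) :
    ∃ G : ℕ → MvPolynomial (Fin (2 * t ^ 2) × Fin 3) ℂ,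
      (∀ k, G k ≠ 0) ∧
      ∀ v : Fin (2 * t ^ 2) → Fin 3 → ℂ,
        (∀ k, MvPolynomial.eval (fun q : Fin (2 * t ^ 2) × Fin 3 => v q.1 q.2) (G k) ≠ 0) →
        ∀ d : ℕ, ∀ m : Fin (2 * t ^ 2) → ℕ, ∀ F : MvPolynomial (Fin 3) ℂ,
          F ≠ 0 → 0 < d → F.IsHomogeneous d →
          (∀ i : Fin (2 * t ^ 2), ∀ s : Fin 3 →₀ ℕ, (∑ j, s j) < m i →
            MvPolynomial.coeff s
              (MvPolynomial.aeval
                (fun j : Fin 3 => (X j + C (v i j) : MvPolynomial (Fin 3) ℂ)) F) = 0) →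
          (∑ i, (m i : ℝ)) < (d : ℝ) * Real.sqrt ((2 * t ^ 2 : ℕ) : ℝ) := by
  obtain ⟨G, hG, hG'⟩ := TH176.Nag.exists_family_proj (2 * t ^ 2)
  refine ⟨G, hG, fun v hv d m F hF hd hFd hm => ?_⟩
  obtain ⟨h0, hind⟩ := hG' v hv
  exact TH176.Nag.nagata_two_sq ht h0 hind hF hd hFd hm

end Pool.Agent.Results.MP_bb3511_ag.ExactNonsquare
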