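import Mathlib
import Pool.Agent.TH181.NagB

set_option autoImplicit false

/-!
# Nagata's inequality for exponentially large degrees and multiplicities

For every `n ≥ 2 ^ 1000`, a plane curve of degree `d ≥ 1` through `n` very general points with
multiplicities at least `m i` satisfies Nagata's inequality `∑ m i < d √n`, unless
`∑ m i > exp (n ^ (1 / 10) / 2)`; and in the latter case
`∑ m i ≤ (1 + exp (-n ^ (1 / 10)) / n) d √n`.
-/

namespace Pool.Agent.Results.MP_bb3511_ag.NagataExponential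

open MvPolynomial

theorem result (n : ℕ) (hn : 2 ^ 1000 ≤ n) :
    ∃ G : ℕ → MvPolynomial (Fin n × Fin 3) ℂ,
      (∀ j, G j ≠ 0) ∧
      ∀ v : Fin n → Fin 3 → ℂ,
        (∀ j, MvPolynomial.eval (fun q : Fin n × Fin 3 => v q.1 q.2) (G j) ≠ 0) →
        ∀ d : ℕ, ∀ m : Fin n → ℕ, ∀ F : MvPolynomial (Fin 3) ℂ,
          F ≠ 0 → 0 < d → F.IsHomogeneous d →
          (∀ i : Fin n, ∀ s : Fin 3 →₀ ℕ, (∑ j, s j) < m i →
            MvPolynomial.coeff s
              (MvPolynomial.aeval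
                (fun j : Fin 3 => (X j + C (v i j) : MvPolynomial (Fin 3) ℂ)) F) = 0) →
          (∑ i, (m i : ℝ)) < (d : ℝ) * Real.sqrt (n : ℝ) ∨
            (Real.exp ((n : ℝ) ^ (1 / 10 : ℝ) / 2) < ∑ i, (m i : ℝ) ∧
              ∑ i, (m i : ℝ) ≤ (1 + Real.exp (-(n : ℝ) ^ (1 / 10 : ℝ)) / n) *
                ((d : ℝ) * Real.sqrt (n : ℝ))) := by
  have hn16 : 16 ≤ n := by
    have h1 : ∀ k : ℕ, 4 ≤ k → 16 ≤ 2 ^ k := fun k hk =>
      (Nat.pow_le_pow_right (n := 2) (i := 4) (by norm_num) hk)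
    exact le_trans (h1 1000 (by norm_num)) hn
  have hnR : (2 : ℝ) ^ 1000 ≤ n := by
    have h1 : ((2 ^ 1000 : ℕ) : ℝ) ≤ (n : ℝ) := Nat.cast_le.2 hn
    rwa [Nat.cast_pow, Nat.cast_ofNat] at h1
  clear hn
  have hn0 : 0 < n := by omega
  obtain ⟨G1, hG1, hG1'⟩ := H932R3.exists_conds (K := ℂ) hn0
  obtain ⟨G2, hG2, hG2'⟩ := TH181.exists_generic n
  refine ⟨fun j => G1 j * G2 j, fun j => mul_ne_zero (hG1 j) (hG2 j),
    fun v hv d m F hF hd hFd hm => ?_⟩
  have hv1 : ∀ j, MvPolynomial.eval (fun q : Fin n × Fin 3 => v q.1 q.2) (G1 j) ≠ 0 := fun j => by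
    have h := hv j
    rw [map_mul] at h
    exact left_ne_zero_of_mul h
  have hv2 : ∀ j, MvPolynomial.eval (fun q : Fin n × Fin 3 => v q.1 q.2) (G2 j) ≠ 0 := fun j => by
    have h := hv j
    rw [map_mul] at h
    exact right_ne_zero_of_mul h
  obtain ⟨h2, hP⟩ := hG2' v hv2
  have hle := TH181.nag_le hnR h2 hP hF hFd hm
  have hM : ((∑ i, m i : ℕ) : ℝ) = ∑ i, (m i : ℝ) := by push_cast; rfl
  rw [← hM]
  by_contra hcon
  rw [not_or] at hcon
  obtain ⟨h3, h4⟩ := hcon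
  rw [not_lt] at h3
  by_cases hsq : ∃ c : ℕ, n = c * c
  · obtain ⟨c, hc⟩ := hsq
    refine hF (hG1' v hv1 d m hd ?_ F hFd hm)
    have hc4 : 4 ≤ c := by
      by_contra hc4
      have : c * c ≤ 3 * 3 := Nat.mul_le_mul (by omega) (by omega)
      omega
    have hs : Real.sqrt n = c := by
      rw [hc]
      push_cast
      exact Real.sqrt_mul_self (Nat.cast_nonneg c)
    rw [hs] at h3
    have h5 : d * c ≤ ∑ i, m i := by exact_mod_cast h3
    have h6 : n * d ≤ (∑ i, m i) * c := by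
      calc n * d = (d * c) * c := by rw [hc]; ring
        _ ≤ (∑ i, m i) * c := Nat.mul_le_mul_right c h5
    have h7 := H932R3.Empt.of_square hc4 h6
    rwa [← hc] at h7
  · push Not at hsq
    refine h4 ⟨?_, ?_⟩
    · refine TH181.nag_num (by omega) hsq hd rfl ?_ h3 hle
      exact Real.rpow_nonneg (Nat.cast_nonneg n) _
    · rwa [mul_comm (d : ℝ)]

end Pool.Agent.Results.MP_bb3511_ag.NagataExponential
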