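import Mathlib
import Pool.Agent.TH603.Cut.Main

set_option autoImplicit false

/-!
# Segre's conjecture at `h = D t ^ 2` general points: systems that are never special

For every `D ≥ 1` and every `ε > 0` there is `t0` such that for `h = D t ^ 2`, `t ≥ t0`, general
points `(p i 0 : p i 1 : p i 2)` of the complex projective plane and arbitrary multiplicities `m i`,
the linear system of curves of degree `d` is not special (any `N + 1` forms in it are linearly
dependent, where `N` is the expected dimension) in each of the three ranges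
* `√h d < ∑ m i`,
* `h (h / 2 + 2) ≤ ∑ m i` and `d + 3 / 2 + ε ≤ (∑ m i + h / 2) / √h`,
* `m i ≤ b + 1` for all `i` and `(∑ max (m i) b + h / 2) / √h + ε ≤ d + 3 / 2`, for some `b`.
-/

namespace Pool.Agent.Results.MP_cfebfb_ag.SharpWindow

open MvPolynomial

theorem result (D : ℕ) (hD : 1 ≤ D) (ε : ℝ) (hε : 0 < ε) : ∃ t0 : ℕ, ∀ t : ℕ, t0 ≤ t →
    ∀ h : ℕ, h = D * t ^ 2 → ∀ m : Fin h → ℕ,
    ∃ Q : MvPolynomial (Fin h × Fin 3) ℂ, Q ≠ 0 ∧
      ∀ p : Fin h → Fin 3 → ℂ,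
        MvPolynomial.eval (fun ij : Fin h × Fin 3 => p ij.1 ij.2) Q ≠ 0 →
        ∀ d : ℕ, (Real.sqrt h * d < ∑ i, (m i : ℝ) ∨
            ((h : ℝ) * (h / 2 + 2) ≤ ∑ i, (m i : ℝ) ∧
              (d : ℝ) + 3 / 2 + ε ≤ ((∑ i, (m i : ℝ)) + h / 2) / Real.sqrt h) ∨
            ∃ b : ℕ, (∀ i, m i ≤ b + 1) ∧
              ((∑ i, (max (m i) b : ℕ) : ℝ) + h / 2) / Real.sqrt h + ε ≤ (d : ℝ) + 3 / 2) →
          ∀ F : Fin ((d + 2).choose 2 - ∑ i, (m i + 1).choose 2 + 1) →
            MvPolynomial (Fin 3) ℂ,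
          (∀ k, F k ∈ MvPolynomial.homogeneousSubmodule (Fin 3) ℂ d ∧
            ∀ i, ∀ n : Fin 3 →₀ ℕ, ∑ j, n j < m i →
              MvPolynomial.coeff n
                (MvPolynomial.aeval (R := ℂ)
                  (fun j : Fin 3 => (X j + C (p i j) : MvPolynomial (Fin 3) ℂ)) (F k)) = 0) →
          ¬ LinearIndependent ℂ F := by
  obtain ⟨t0, -, h'⟩ := TH603.Cut.expDim_cut hD hε
  refine ⟨t0, fun t ht h hn m => ?_⟩
  subst hn
  obtain ⟨F, hF, hF'⟩ := h' t ht m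
  exact H932R3.not_special_of (L := ℂ) ⟨F, hF, fun P hP d hd => hF' P hP d hd⟩

end Pool.Agent.Results.MP_cfebfb_ag.SharpWindow
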