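import Mathlib
import Pool.Agent.TH603.Cut.Main

set_option autoImplicit false

/-!
# The Segre-Harbourne-Gimigliano-Hirschowitz conjecture at `r = D t ^ 2` points, sharp window

For every `D ≥ 1` and every `ε > 0` there is `t0` such that for `r = D t ^ 2`, `t ≥ t0`, general
points of the complex projective plane and arbitrary multiplicities `m i`, the linear system
`|d H - m 0 E 0 - ⋯|` has the expected dimension in each of the three ranges
* `√r d < ∑ m i`,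
* `r (r / 2 + 2) ≤ ∑ m i` and `d + 3 / 2 + ε ≤ (∑ m i + r / 2) / √r`,
* `m i ≤ b + 1` for all `i` and `(∑ max (m i) b + r / 2) / √r + ε ≤ d + 3 / 2`, for some `b`.
-/

namespace Pool.Agent.Results.MP_6e81d8_ag.SharpWindow

/-- The vector space of the forms of degree `d` in three variables over `ℂ` with multiplicity at
least `m i` at the point `(P i 0 : P i 1 : 1)` for every `i`. -/
noncomputable def forms {r : ℕ} (P : Fin r → Fin 2 → ℂ) (d : ℕ) (m : Fin r → ℕ) :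
    Submodule ℂ (MvPolynomial (Fin 3) ℂ) :=
  MvPolynomial.homogeneousSubmodule (Fin 3) ℂ d ⊓
    Submodule.restrictScalars ℂ
      (⨅ i : Fin r,
        (Ideal.span
          ({MvPolynomial.X 0 - MvPolynomial.C (P i 0) * MvPolynomial.X 2,
            MvPolynomial.X 1 - MvPolynomial.C (P i 1) * MvPolynomial.X 2} :
            Set (MvPolynomial (Fin 3) ℂ))) ^ (m i))

/-- The projective dimension of the linear system `|d H - m 0 E 0 - ⋯|`. -/
noncomputable def dim {r : ℕ} (P : Fin r → Fin 2 → ℂ) (d : ℕ) (m : Fin r → ℕ) : ℤ :=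
  (Module.finrank ℂ ↥(forms P d m) : ℤ) - 1

/-- The virtual dimension. -/
def vdim {r : ℕ} (d : ℕ) (m : Fin r → ℕ) : ℤ :=
  ((d + 2).choose 2 : ℤ) - 1 - ∑ i, ((m i + 1).choose 2 : ℤ)

/-- The expected dimension. -/
def edim {r : ℕ} (d : ℕ) (m : Fin r → ℕ) : ℤ := max (vdim d m) (-1)

theorem result (D : ℕ) (hD : 1 ≤ D) (ε : ℝ) (hε : 0 < ε) : ∃ t0 : ℕ, ∀ t : ℕ, t0 ≤ t →
    ∀ r : ℕ, r = D * t ^ 2 → ∀ m : Fin r → ℕ,
    ∃ F : MvPolynomial (Fin r × Fin 2) ℂ, F ≠ 0 ∧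
      ∀ P : Fin r → Fin 2 → ℂ,
        MvPolynomial.eval (fun ij : Fin r × Fin 2 => P ij.1 ij.2) F ≠ 0 →
        ∀ d : ℕ, (Real.sqrt r * d < ∑ i, (m i : ℝ) ∨
            ((r : ℝ) * (r / 2 + 2) ≤ ∑ i, (m i : ℝ) ∧
              (d : ℝ) + 3 / 2 + ε ≤ ((∑ i, (m i : ℝ)) + r / 2) / Real.sqrt r) ∨
            ∃ b : ℕ, (∀ i, m i ≤ b + 1) ∧
              ((∑ i, (max (m i) b : ℕ) : ℝ) + r / 2) / Real.sqrt r + ε ≤ (d : ℝ) + 3 / 2) →
          dim P d m = edim d m := by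
  obtain ⟨t0, -, h⟩ := TH603.Cut.expDim_cut hD hε
  refine ⟨t0, fun t ht r hr m => ?_⟩
  subst hr
  obtain ⟨F, hF, hF'⟩ := h t ht m
  refine ⟨F.map (algebraMap ℚ ℂ), H932R3.map_ne_zero_of hF, fun P hP d hd => ?_⟩
  rw [MvPolynomial.eval_map] at hP
  have h1 : Module.finrank ℂ ↥(forms P d m) =
      Nat.choose (d + 2) 2 - ∑ i, Nat.choose (m i + 1) 2 := hF' P hP d hd
  have h2 : ∑ i, ((m i + 1).choose 2 : ℤ) = ((∑ i, Nat.choose (m i + 1) 2 : ℕ) : ℤ) := by
    push_cast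
    rfl
  unfold dim edim vdim
  rw [h1, h2]
  omega

end Pool.Agent.Results.MP_6e81d8_ag.SharpWindow
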